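import Pool.Agent.SGL.StmtsA

set_option autoImplicit false

/-!
# Row NAD: the apexes of an edge with a non-facial triangle are not adjacent
-/

namespace Pool.Agent.SGL.H24

open Pool.Agent.SGE Pool.Agent.SGP Pool.Agent.SGY Pool.Agent.SGD

theorem nad (hCol : ColStmt) : NadStmt := by
  intro V _ E Φ x y z u v h n hu hv
  obtain ⟨χ, h1, h2⟩ := hCol h n
  have hχ := h2 u v hu hv
  have ux : u ≠ x := by
    intro e
    have h3 := h.fe _ _ _ (h.rot _ _ _ (h.rot _ _ _ hu))
    rw [e] at h3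
    exact h.irr _ h3
  have uy : u ≠ y := by
    intro e
    have h3 := h.fe _ _ _ (h.rot _ _ _ hu)
    rw [e] at h3
    exact h.irr _ h3
  have uz : u ≠ z := by
    intro e
    rw [e] at hu
    exact n.2.2.2.1 hu
  have vx : v ≠ x := by
    intro e
    have h3 := h.fe _ _ _ (h.rot _ _ _ hv)
    rw [e] at h3
    exact h.irr _ h3
  have vy : v ≠ y := by
    intro e
    have h3 := h.fe _ _ _ (h.rot _ _ _ (h.rot _ _ _ hv))
    rw [e] at h3
    exact h.irr _ h3
  have vz : v ≠ z := by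
    intro e
    rw [e] at hv
    exact n.2.2.2.2 hv
  refine ⟨?_, ?_, ⟨ux, uy, uz⟩, ⟨vx, vy, vz⟩, ?_⟩
  · intro e
    rw [e] at hχ
    exact hχ rfl
  · intro e
    exact hχ (h1 u v e ux uy uz vx vy vz)
  · intro w hwu hwv
    by_contra hc
    have hx : w ≠ x := fun e => hc (Or.inl e)
    have hy : w ≠ y := fun e => hc (Or.inr (Or.inl e))
    have hz : w ≠ z := fun e => hc (Or.inr (Or.inr e))
    apply hχ
    rw [← h1 w u hwu hx hy hz ux uy uz, h1 w v hwv hx hy hz vx vy vz]

end Pool.Agent.SGL.H24
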